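import Mathlib

set_option autoImplicit false

namespace Pool.Agent.H377Z.Rec

open MeasureTheory ProbabilityTheory
open scoped ENNReal

/-- The `k`-th power of a graph: distinct vertices at distance at most `k` are adjacent. -/
def power {V : Type} (G : SimpleGraph V) (k : ℕ) : SimpleGraph V where
  Adj x y := x ≠ y ∧ G.edist x y ≤ (k : ℕ∞)
  symm := ⟨fun _ _ h => ⟨h.1.symm, by rw [G.edist_comm]; exact h.2⟩⟩
  loopless := ⟨fun _ h => h.1 rfl⟩

open Classical in
/-- One step of simple random walk: a uniformly random neighbour of `x` (and `x` itself in the
degenerate cases, where `x` has no neighbour or infinitely many). -/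
noncomputable def step {V : Type} (G : SimpleGraph V) (x : V) : PMF V :=
  if h : (G.neighborSet x).Finite ∧ (G.neighborSet x).Nonempty then
    PMF.uniformOfFinset h.1.toFinset ((Set.Finite.toFinset_nonempty h.1).2 h.2)
  else PMF.pure x

variable {V : Type} [Countable V] [MeasurableSpace V] [DiscreteMeasurableSpace V]

/-- The transition kernel: given the path up to time `n`, the next position has law `step` of the
current position. -/
noncomputable def stepKernel (G : SimpleGraph V) (n : ℕ) : Kernel (Finset.Iic n → V) V :=
  (Kernel.ofFunOfCountable (fun x => (step G x).toMeasure)).comap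
    (fun path => path ⟨n, Finset.mem_Iic.2 le_rfl⟩) (measurable_pi_apply _)

instance (G : SimpleGraph V) (n : ℕ) : IsMarkovKernel (stepKernel G n) :=
  ⟨fun _ => inferInstanceAs (IsProbabilityMeasure (step G _).toMeasure)⟩

/-- The law, on infinite paths, of simple random walk on `G` started at `v`. -/
noncomputable def walkLaw (G : SimpleGraph V) (v : V) : Measure (ℕ → V) :=
  Kernel.trajMeasure (X := fun _ => V) (Measure.dirac v) (stepKernel G)

/-- The probability that simple random walk started at `v` returns to `v`. -/
noncomputable def returnProb (G : SimpleGraph V) (v : V) : ℝ≥0∞ :=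
  walkLaw G v {ω | ∃ n, 1 ≤ n ∧ ω n = v}

/-- The random rooted graph `(G, ρ)`, with `G` fixed and the root `ρ` of law `p`, satisfies the
mass transport principle for every nonnegative function of doubly rooted graphs that is invariant
under isomorphism. -/
def Unimodular {V : Type} (G : SimpleGraph V) (p : PMF V) : Prop :=
  ∀ f : (W : Type) → SimpleGraph W → W → W → ℝ≥0∞,
    (∀ (W W' : Type) (H : SimpleGraph W) (H' : SimpleGraph W') (e : H ≃g H') (x y : W),
      f W' H' (e x) (e y) = f W H x y) →
    ∑' r, p r * ∑' x, f V G r x = ∑' r, p r * ∑' x, f V G x r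

end Pool.Agent.H377Z.Rec
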