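import Pool.Agent.H377Z.Rec.Walk

set_option autoImplicit false
set_option linter.unusedSectionVars false

namespace Pool.Agent.H377Z.Rec

open Filter Topology Finset

variable {V : Type} (G : SimpleGraph V)

open Classical in
/-- Dirichlet form on a finite set of vertices -/
noncomputable def dir (S : Finset V) (f g : V → ℝ) : ℝ :=
  ∑ x ∈ S, ∑ y ∈ S, if G.Adj x y then (f x - f y) * (g x - g y) else 0

open Classical in
lemma green (S : Finset V) (f g : V → ℝ) :
    dir G S f g = 2 * ∑ x ∈ S, f x * ∑ y ∈ S, if G.Adj x y then (g x - g y) else 0 := by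
  have h1 : dir G S f g = (∑ x ∈ S, ∑ y ∈ S, if G.Adj x y then f x * (g x - g y) else 0)
      + ∑ x ∈ S, ∑ y ∈ S, if G.Adj x y then f y * (g y - g x) else 0 := by
    unfold dir
    rw [← Finset.sum_add_distrib]
    refine Finset.sum_congr rfl fun x _ => ?_
    rw [← Finset.sum_add_distrib]
    refine Finset.sum_congr rfl fun y _ => ?_
    split_ifs <;> ring
  have h2 : (∑ x ∈ S, ∑ y ∈ S, if G.Adj x y then f y * (g y - g x) else 0)
      = ∑ x ∈ S, ∑ y ∈ S, if G.Adj x y then f x * (g x - g y) else 0 := by
    rw [Finset.sum_comm]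
    refine Finset.sum_congr rfl fun x _ => Finset.sum_congr rfl fun y _ => ?_
    simp only [G.adj_comm y x]
  rw [h1, h2, ← two_mul]
  congr 1
  refine Finset.sum_congr rfl fun x _ => ?_
  rw [Finset.mul_sum]
  refine Finset.sum_congr rfl fun y _ => ?_
  split_ifs <;> ring

variable [G.LocallyFinite]

open Classical in
lemma sum_adj {S : Finset V} {x : V} (h : G.neighborFinset x ⊆ S) (F : V → ℝ) :
    (∑ y ∈ S, if G.Adj x y then F y else 0) = ∑ y ∈ G.neighborFinset x, F y := by
  rw [← Finset.sum_filter]
  refine Finset.sum_congr ?_ fun _ _ => rfl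
  ext y
  simp only [mem_filter, SimpleGraph.mem_neighborFinset]
  exact ⟨fun h => h.2, fun h' => ⟨h (by simpa using h'), h'⟩⟩

lemma av_self (v : V) (m : ℕ) : av G v m v = 0 := by
  cases m <;> simp [av]

lemma av_succ {v x : V} (hx : x ≠ v) (m : ℕ) :
    av G v (m + 1) x = (∑ y ∈ G.neighborFinset x, av G v m y) / G.degree x := by
  simp [av, hx]

lemma av_nonneg' (v : V) (m : ℕ) (x : V) : 0 ≤ av G v m x := by
  induction m generalizing x with
  | zero => unfold av; split_ifs <;> norm_num
  | succ m ih =>
    unfold av; split_ifs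
    · exact le_rfl
    · exact div_nonneg (Finset.sum_nonneg fun y _ => ih y) (Nat.cast_nonneg _)

lemma av_le_one (v : V) (m : ℕ) (x : V) : av G v m x ≤ 1 := by
  induction m generalizing x with
  | zero => unfold av; split_ifs <;> norm_num
  | succ m ih =>
    unfold av; split_ifs
    · norm_num
    · refine div_le_one_of_le₀ ?_ (Nat.cast_nonneg _)
      calc ∑ y ∈ G.neighborFinset x, av G v m y ≤ ∑ y ∈ G.neighborFinset x, (1 : ℝ) :=
            Finset.sum_le_sum fun y _ => ih y
        _ = _ := by simp

lemma av_succ_le (v : V) (m : ℕ) (x : V) : av G v (m + 1) x ≤ av G v m x := by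
  induction m generalizing x with
  | zero =>
    by_cases hx : x = v
    · subst hx; simp [av_self]
    · have : av G v 0 x = 1 := by simp [av, hx]
      rw [this]; exact av_le_one G v _ _
  | succ m ih =>
    by_cases hx : x = v
    · subst hx; simp [av_self]
    · rw [av_succ G hx, av_succ G hx]
      exact div_le_div_of_nonneg_right (Finset.sum_le_sum fun y _ => ih y) (Nat.cast_nonneg _)

lemma av_finite (hG : ∀ x, 0 < G.degree x) (v : V) (m : ℕ) : {x | av G v m x ≠ 1}.Finite := by
  induction m with
  | zero =>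
    refine (Set.finite_singleton v).subset fun x hx => ?_
    by_contra hc
    have hc' : x ≠ v := hc
    exact hx (by simp [av, hc'])
  | succ m ih =>
    refine ((Set.finite_singleton v).union
      (ih.biUnion (t := fun y => G.neighborSet y) fun y _ => Set.toFinite _)).subset ?_
    intro x hx
    by_contra hc
    simp only [Set.mem_union, Set.mem_singleton_iff, Set.mem_iUnion, not_or, not_exists] at hc
    apply hx
    rw [av_succ G hc.1]
    have h1 : ∀ y ∈ G.neighborFinset x, av G v m y = 1 := by
      intro y hy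
      by_contra h
      exact hc.2 y h (G.symm.symm _ _ (by simpa using hy))
    rw [Finset.sum_congr rfl h1]
    have : (G.degree x : ℝ) ≠ 0 := by exact_mod_cast (hG x).ne'
    simp [this]

omit [G.LocallyFinite] in
lemma mean_step (A B : Finset V) (g : V → ℝ) {j : ℕ} (hA : j + 1 ≤ A.card) (hB : j + 2 ≤ B.card) :
    (∑ x ∈ A, g x) / A.card - (∑ y ∈ B, g y) / B.card ≤
      (∑ x ∈ A, ∑ y ∈ B, (g x - g y) * (g x - g y)) / 2 + (1 / (j + 1) - 1 / (j + 2)) / 2 := by
  have ha : (j + 1 : ℝ) ≤ A.card := by exact_mod_cast hA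
  have hb : (j + 2 : ℝ) ≤ B.card := by exact_mod_cast hB
  have hj : (0 : ℝ) ≤ j := Nat.cast_nonneg _
  have ha0 : (0 : ℝ) < A.card := by linarith
  have hb0 : (0 : ℝ) < B.card := by linarith
  set θ : ℝ := 1 / (A.card * B.card) with hθ
  have h1 : (∑ x ∈ A, g x) / A.card - (∑ y ∈ B, g y) / B.card
      = ∑ x ∈ A, ∑ y ∈ B, (g x - g y) * θ := by
    simp only [← Finset.sum_mul, Finset.sum_sub_distrib, Finset.sum_const, nsmul_eq_mul,
      ← Finset.mul_sum, hθ]
    field_simp
  have h2 : ∑ x ∈ A, ∑ y ∈ B, (g x - g y) * θ ≤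
      ∑ x ∈ A, ∑ y ∈ B, ((g x - g y) * (g x - g y) / 2 + θ ^ 2 / 2) :=
    Finset.sum_le_sum fun x _ => Finset.sum_le_sum fun y _ => by nlinarith [sq_nonneg (g x - g y - θ)]
  have h3 : ∑ x ∈ A, ∑ y ∈ B, ((g x - g y) * (g x - g y) / 2 + θ ^ 2 / 2)
      = (∑ x ∈ A, ∑ y ∈ B, (g x - g y) * (g x - g y)) / 2 + θ / 2 := by
    simp only [Finset.sum_add_distrib, ← Finset.sum_div, Finset.sum_const, nsmul_eq_mul, hθ]
    field_simp
  have h4 : θ ≤ 1 / (j + 1) - 1 / (j + 2) := by
    have : (1 : ℝ) / (j + 1) - 1 / (j + 2) = 1 / ((j + 1) * (j + 2)) := by field_simp; ring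
    rw [this, hθ]
    exact one_div_le_one_div_of_le (by positivity) (mul_le_mul ha hb (by positivity) ha0.le)
  linarith

/-- transience criterion -/
theorem transient_of_layers (hG : ∀ x, 0 < G.degree x) (v : V) (B : ℕ → Finset V)
    (h0 : B 0 = {v}) (hdis : ∀ i j x, x ∈ B i → x ∈ B j → i = j) (hcard : ∀ j, j + 1 ≤ (B j).card)
    (hadj : ∀ j, ∀ x ∈ B j, ∀ y ∈ B (j + 1), G.Adj x y) (m : ℕ) :
    1 / 2 ≤ ∑ y ∈ G.neighborFinset v, av G v m y := by
  classical
  set g : V → ℝ := fun x => 1 - av G v m x with hg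
  have hfin := av_finite G hG v m
  set S0 := hfin.toFinset with hS0
  have hS0' : ∀ x, x ∉ S0 → g x = 0 := by
    intro x hx
    have : av G v m x = 1 := by
      by_contra h
      exact hx (by simpa [hS0] using h)
    simp [hg, this]
  obtain ⟨N, hN⟩ : ∃ N, ∀ x ∈ B N, x ∉ S0 := by
    by_contra hc
    push Not at hc
    choose f hf1 hf2 using hc
    have hinj : Function.Injective f := fun i j hij => hdis i j (f i) (hf1 i) (hij ▸ hf1 j)
    exact (Set.infinite_range_of_injective hinj)
      (S0.finite_toSet.subset (by rintro _ ⟨i, rfl⟩; exact hf2 i))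
  set S := S0 ∪ S0.biUnion (fun x => G.neighborFinset x) ∪ (range (N + 1)).biUnion B with hS
  have hBS : ∀ j ≤ N, B j ⊆ S := fun j hj x hx =>
    mem_union_right _ (mem_biUnion.2 ⟨j, mem_range.2 (by omega), hx⟩)
  have hvS : v ∈ S := hBS 0 (by omega) (by simp [h0])
  have hgv : g v = 1 := by simp [hg, av_self]
  have hup : dir G S g g ≤ 2 * ∑ y ∈ G.neighborFinset v, av G v m y := by
    rw [green]
    gcongr
    have hL : ∀ x ∈ S, g x * (∑ y ∈ S, if G.Adj x y then (g x - g y) else 0) ≤
        if x = v then ∑ y ∈ G.neighborFinset v, av G v m y else 0 := by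
      intro x _
      by_cases hx0 : x ∈ S0
      · have hsub : G.neighborFinset x ⊆ S := fun y hy =>
          mem_union_left _ (mem_union_right _ (mem_biUnion.2 ⟨x, hx0, hy⟩))
        rw [sum_adj G hsub]
        by_cases hxv : x = v
        · subst hxv
          simp [hg, av_self]
        · rw [if_neg hxv]
          refine mul_nonpos_of_nonneg_of_nonpos (by simp [hg, av_le_one]) ?_
          have h1 := av_succ_le G v m x
          rw [av_succ G hxv, div_le_iff₀ (by exact_mod_cast hG x)] at h1
          simp only [hg, sub_sub_sub_cancel_left, Finset.sum_sub_distrib, Finset.sum_const,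
            SimpleGraph.card_neighborFinset_eq_degree, nsmul_eq_mul]
          linarith
      · rw [hS0' x hx0, zero_mul]
        split_ifs
        · exact Finset.sum_nonneg fun y _ => av_nonneg' G v m y
        · exact le_rfl
    refine (Finset.sum_le_sum hL).trans ?_
    rw [Finset.sum_ite_eq' S v, if_pos hvS]
  set E : ℕ → ℝ := fun j => ∑ x ∈ B j, ∑ y ∈ B (j + 1), (g x - g y) * (g x - g y) with hE
  have hlow : ∑ j ∈ range N, E j ≤ dir G S g g := by
    have hnn : ∀ x y, 0 ≤ (if G.Adj x y then (g x - g y) * (g x - g y) else 0) := by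
      intro x y
      split_ifs
      · exact mul_self_nonneg _
      · exact le_rfl
    calc ∑ j ∈ range N, E j
        ≤ ∑ j ∈ range N, ∑ x ∈ B j,
            ∑ y ∈ S, (if G.Adj x y then (g x - g y) * (g x - g y) else 0) := by
          refine Finset.sum_le_sum fun j hj => Finset.sum_le_sum fun x hx => ?_
          calc ∑ y ∈ B (j + 1), (g x - g y) * (g x - g y)
              = ∑ y ∈ B (j + 1), (if G.Adj x y then (g x - g y) * (g x - g y) else 0) :=
                Finset.sum_congr rfl fun y hy => by rw [if_pos (hadj j x hx y hy)]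
            _ ≤ _ := Finset.sum_le_sum_of_subset_of_nonneg
                (hBS (j + 1) (by have := mem_range.1 hj; omega)) fun y _ _ => hnn x y
      _ = ∑ x ∈ (range N).biUnion B,
            ∑ y ∈ S, (if G.Adj x y then (g x - g y) * (g x - g y) else 0) := by
          rw [Finset.sum_biUnion]
          intro i _ j _ hij
          exact Finset.disjoint_left.2 fun x h1 h2 => hij (hdis i j x h1 h2)
      _ ≤ _ := by
          refine Finset.sum_le_sum_of_subset_of_nonneg ?_
            fun x _ _ => Finset.sum_nonneg fun y _ => hnn x y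
          intro x hx
          obtain ⟨j, hj, hx⟩ := mem_biUnion.1 hx
          exact hBS j (by have := mem_range.1 hj; omega) hx
  have htel : ∀ n : ℕ, 1 - (∑ y ∈ B n, g y) / (B n).card ≤
      (∑ j ∈ range n, E j) / 2 + (1 - 1 / (n + 1)) / 2 := by
    intro n
    induction n with
    | zero => simp [h0, hgv]
    | succ n ih =>
      have := mean_step (B n) (B (n + 1)) g (hcard n) (hcard (n + 1))
      rw [Finset.sum_range_succ]
      push_cast
      have e : (n + 1 + 1 : ℝ) = n + 2 := by ring
      rw [e]
      simp only [hE] at ih ⊢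
      linarith
  have h1 := htel N
  rw [Finset.sum_eq_zero (fun x hx => hS0' x (hN x hx)), zero_div] at h1
  have h2 : (0 : ℝ) ≤ 1 / (N + 1) := by positivity
  linarith

/-- recurrence criterion -/
theorem recurrent_of_test (hG : ∀ x, 0 < G.degree x) (v y : V) (hy : G.Adj v y)
    (h : ∀ ε : ℝ, 0 < ε → ∃ g : V → ℝ, {x | g x ≠ 0}.Finite ∧ g y = 1 ∧ ∀ S, dir G S g g ≤ ε) :
    Tendsto (fun m => av G v m y) atTop (𝓝 0) := by
  classical
  set u : V → ℝ := fun x => ⨅ m, av G v m x with hu
  have hlim : ∀ x, Tendsto (fun m => av G v m x) atTop (𝓝 (u x)) := fun x =>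
    tendsto_atTop_ciInf (antitone_nat_of_succ_le fun m => av_succ_le G v m x)
      ⟨0, by rintro _ ⟨m, rfl⟩; exact av_nonneg' G v m x⟩
  have hu0 : ∀ x, 0 ≤ u x := fun x => ge_of_tendsto' (hlim x) fun m => av_nonneg' G v m x
  have hu1 : ∀ x, u x ≤ 1 := fun x => le_of_tendsto' (hlim x) fun m => av_le_one G v m x
  have huv : u v = 0 := by simp [hu, av_self]
  have hharm : ∀ x, x ≠ v → ∑ z ∈ G.neighborFinset x, (u x - u z) = 0 := by
    intro x hx
    have h1 : Tendsto (fun m => av G v (m + 1) x) atTop (𝓝 (u x)) :=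
      (hlim x).comp (tendsto_add_atTop_nat 1)
    simp only [av_succ G hx] at h1
    have h2 : Tendsto (fun m => (∑ z ∈ G.neighborFinset x, av G v m z) / G.degree x) atTop
        (𝓝 ((∑ z ∈ G.neighborFinset x, u z) / G.degree x)) :=
      (tendsto_finsetSum _ fun z _ => hlim z).div_const _
    have h3 := tendsto_nhds_unique h1 h2
    rw [eq_div_iff (by exact_mod_cast (hG x).ne')] at h3
    simp only [Finset.sum_sub_distrib, Finset.sum_const,
      SimpleGraph.card_neighborFinset_eq_degree, nsmul_eq_mul]
    linarith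
  suffices hz : u y = 0 by simpa [hz] using hlim y
  have key : ∀ ε : ℝ, 0 < ε → u y ^ 2 ≤ ε := by
    intro ε hε
    obtain ⟨g, hg1, hg2, hg3⟩ := h ε hε
    set S0 := hg1.toFinset with hS0
    set S := S0 ∪ S0.biUnion (fun x => G.neighborFinset x) with hS
    have hyS0 : y ∈ S0 := by simp [hS0, hg2]
    have hyS : y ∈ S := mem_union_left _ hyS0
    have hvS : v ∈ S := mem_union_right _ (mem_biUnion.2 ⟨y, hyS0, by simpa using hy.symm⟩)
    have h1 : dir G S (fun x => g x ^ 2 * u x) u = 0 := by
      rw [green, Finset.sum_eq_zero, mul_zero]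
      intro x _
      by_cases hx0 : x ∈ S0
      · have hsub : G.neighborFinset x ⊆ S := fun z hz =>
          mem_union_right _ (mem_biUnion.2 ⟨x, hx0, hz⟩)
        rw [sum_adj G hsub]
        by_cases hxv : x = v
        · subst hxv; simp [huv]
        · rw [hharm x hxv, mul_zero]
      · have : g x = 0 := by simpa [hS0] using hx0
        simp [this]
    have h2 : dir G S (fun x => g x * u x) (fun x => g x * u x) ≤
        dir G S (fun x => g x ^ 2 * u x) u + dir G S g g := by
      unfold dir
      rw [← Finset.sum_add_distrib]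
      refine Finset.sum_le_sum fun a _ => ?_
      rw [← Finset.sum_add_distrib]
      refine Finset.sum_le_sum fun b _ => ?_
      split_ifs
      · have e : (g a * u a - g b * u b) * (g a * u a - g b * u b)
            = (g a ^ 2 * u a - g b ^ 2 * u b) * (u a - u b)
              + u a * u b * ((g a - g b) * (g a - g b)) := by ring
        have h3 : u a * u b ≤ 1 := mul_le_one₀ (hu1 a) (hu0 b) (hu1 b)
        have h4 := mul_le_mul_of_nonneg_right h3 (mul_self_nonneg (g a - g b))
        linarith
      · simp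
    have h3 : u y ^ 2 ≤ dir G S (fun x => g x * u x) (fun x => g x * u x) := by
      have hnn : ∀ a b, 0 ≤ (if G.Adj a b then (g a * u a - g b * u b) * (g a * u a - g b * u b)
          else 0) := by
        intro a b
        split_ifs
        · exact mul_self_nonneg _
        · exact le_rfl
      unfold dir
      refine le_trans ?_ (Finset.single_le_sum (f := fun a => ∑ b ∈ S,
        if G.Adj a b then (g a * u a - g b * u b) * (g a * u a - g b * u b) else 0)
        (fun a _ => Finset.sum_nonneg fun b _ => hnn a b) hvS)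
      refine le_trans ?_ (Finset.single_le_sum (f := fun b =>
        if G.Adj v b then (g v * u v - g b * u b) * (g v * u v - g b * u b) else 0)
        (fun b _ => hnn v b) hyS)
      simp only [hy, if_true, huv, hg2]
      nlinarith
    have := hg3 S
    linarith
  have h0 : u y ^ 2 ≤ 0 := le_of_forall_pos_le_add fun ε hε => by simpa using key ε hε
  exact pow_eq_zero_iff (two_ne_zero) |>.1 (le_antisymm h0 (sq_nonneg _))

end Pool.Agent.H377Z.Rec
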