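import Pool.Agent.H377Z.Rec.Energy

set_option autoImplicit false

namespace Pool.Agent.H377Z.Rec

open Filter Topology Finset MeasureTheory
open scoped ENNReal

/-- vertices: level, index in the level, member of the cluster -/
@[ext] structure Vx where
  k : ℕ
  i : ℕ
  a : ℕ
  h : a ≤ k

def Vx.enc (x : Vx) : ℕ × ℕ × ℕ := (x.k, x.i, x.a)

lemma Vx.enc_inj : Function.Injective Vx.enc := by
  intro x y h
  simp only [Vx.enc, Prod.mk.injEq] at h
  exact Vx.ext h.1 h.2.1 h.2.2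

instance : Countable Vx := Vx.enc_inj.countable
instance : MeasurableSpace Vx := ⊤
instance : DiscreteMeasurableSpace Vx := ⟨fun _ => trivial⟩
noncomputable instance : DecidableEq Vx := Classical.decEq _

def rel (x y : Vx) : Prop :=
  x.a = 0 ∧ ((y.k = x.k ∧ y.i = x.i) ∨ (y.k = x.k + 1 ∧ y.i = x.i / 2))

def gr : SimpleGraph Vx := SimpleGraph.fromRel rel

lemma gr_adj {x y : Vx} : gr.Adj x y ↔ x ≠ y ∧ (rel x y ∨ rel y x) := SimpleGraph.fromRel_adj _ _ _

def hub (k i : ℕ) : Vx := ⟨k, i, 0, Nat.zero_le _⟩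

def cluster (k i : ℕ) : Finset Vx :=
  (Finset.univ : Finset (Fin (k + 1))).map
    ⟨fun a : Fin (k + 1) => (⟨k, i, a, Nat.lt_succ_iff.1 a.2⟩ : Vx), fun _ _ h =>
      Fin.ext (congrArg Vx.a h)⟩

lemma mem_cluster {k i : ℕ} {x : Vx} : x ∈ cluster k i ↔ x.k = k ∧ x.i = i := by
  unfold cluster
  simp only [Finset.mem_map, mem_univ, Function.Embedding.coeFn_mk, true_and]
  constructor
  · rintro ⟨a, rfl⟩; exact ⟨rfl, rfl⟩
  · rintro ⟨rfl, rfl⟩
    exact ⟨⟨x.a, Nat.lt_succ_iff.2 x.h⟩, rfl⟩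

lemma card_cluster (k i : ℕ) : (cluster k i).card = k + 1 := by simp [cluster]

noncomputable def nb (x : Vx) : Finset Vx :=
  cluster x.k x.i ∪ cluster (x.k + 1) (x.i / 2) ∪ cluster (x.k - 1) (2 * x.i) ∪
    cluster (x.k - 1) (2 * x.i + 1)

lemma nb_sub (x : Vx) : gr.neighborSet x ⊆ nb x := by
  intro y hy
  have := (gr_adj.1 hy).2
  simp only [nb, coe_union, Set.mem_union, mem_coe, mem_cluster]
  unfold rel at this
  omega

lemma nb_card (x : Vx) : (nb x).card ≤ 4 * (x.k + 2) := by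
  unfold nb
  refine (card_union_le _ _).trans ?_
  have h1 := card_union_le (cluster x.k x.i ∪ cluster (x.k + 1) (x.i / 2))
    (cluster (x.k - 1) (2 * x.i))
  have h2 := card_union_le (cluster x.k x.i) (cluster (x.k + 1) (x.i / 2))
  simp only [card_cluster] at *
  omega

lemma gr_fin (x : Vx) : (gr.neighborSet x).Finite := (nb x).finite_toSet.subset (nb_sub x)

lemma gr_ncard (x : Vx) : (gr.neighborSet x).ncard ≤ 4 * (x.k + 2) :=
  (Set.ncard_le_ncard (nb_sub x) (nb x).finite_toSet).trans (by simpa using nb_card x)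

lemma adj_hub {x : Vx} (h : x.a ≠ 0) : gr.Adj x (hub x.k x.i) :=
  gr_adj.2 ⟨fun e => h (congrArg Vx.a e), Or.inr ⟨rfl, Or.inl ⟨rfl, rfl⟩⟩⟩

lemma hub_adj {k i : ℕ} {y : Vx} (h1 : y.k = k + 1) (h2 : y.i = i / 2) : gr.Adj (hub k i) y :=
  gr_adj.2 ⟨fun e => by have := congrArg Vx.k e; simp [hub] at this; omega,
    Or.inl ⟨rfl, Or.inr ⟨h1, h2⟩⟩⟩

lemma eq_hub {x : Vx} (h : x.a = 0) : x = hub x.k x.i := Vx.ext rfl rfl h

lemma exists_adj (x : Vx) : ∃ y, gr.Adj x y := by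
  by_cases h : x.a = 0
  · refine ⟨hub (x.k + 1) (x.i / 2), ?_⟩
    conv_lhs => rw [eq_hub h]
    exact hub_adj rfl rfl
  · exact ⟨_, adj_hub h⟩

lemma reach_hub (x : Vx) (j : ℕ) : gr.Reachable x (hub (x.k + j) (x.i / 2 ^ j)) := by
  induction j with
  | zero =>
    by_cases h : x.a = 0
    · simp only [add_zero, pow_zero, Nat.div_one]
      rw [← eq_hub h]
    · simpa using (adj_hub h).reachable
  | succ j ih =>
    refine ih.trans (hub_adj rfl ?_).reachable
    simp [hub, pow_succ, Nat.div_div_eq_div_mul]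

lemma gr_connected : gr.Connected := by
  have : Nonempty Vx := ⟨hub 0 0⟩
  refine ⟨fun x y => ?_⟩
  have key : ∀ (z : Vx) (L : ℕ), z.k + z.i ≤ L → gr.Reachable z (hub L 0) := by
    intro z L hL
    have h1 := reach_hub z (L - z.k)
    have h2 : z.i / 2 ^ (L - z.k) = 0 := by
      apply Nat.div_eq_of_lt
      exact lt_of_lt_of_le Nat.lt_two_pow_self (Nat.pow_le_pow_right (by norm_num) (by omega))
    have h3 : z.k + (L - z.k) = L := by omega
    rwa [h2, h3] at h1
  exact (key x (x.k + x.i + y.k + y.i) (by omega)).trans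
    (key y (x.k + x.i + y.k + y.i) (by omega)).symm

/-! ### powers -/

lemma ball_finite {V : Type} (G : SimpleGraph V) (hG : ∀ x, (G.neighborSet x).Finite) (n : ℕ)
    (x : V) : {y | ∃ p : G.Walk x y, p.length ≤ n}.Finite := by
  induction n generalizing x with
  | zero =>
    refine (Set.finite_singleton x).subset ?_
    rintro y ⟨p, hp⟩
    exact (SimpleGraph.Walk.eq_of_length_eq_zero (Nat.le_zero.1 hp)).symm
  | succ n ih =>
    refine ((Set.finite_singleton x).union ((hG x).biUnion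
      (t := fun z => {y | ∃ p : G.Walk z y, p.length ≤ n}) fun z _ => ih z)).subset ?_
    rintro y ⟨p, hp⟩
    cases p with
    | nil => exact Or.inl rfl
    | cons h q =>
      refine Or.inr (Set.mem_biUnion h ⟨q, ?_⟩)
      simpa using hp

lemma power_fin {V : Type} (G : SimpleGraph V) (hG : ∀ x, (G.neighborSet x).Finite) (n : ℕ)
    (x : V) : ((power G n).neighborSet x).Finite := by
  refine (ball_finite G hG n x).subset ?_
  rintro y ⟨_, hy⟩
  obtain ⟨p, hp⟩ := SimpleGraph.exists_walk_of_edist_ne_top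
    (ne_top_of_le_ne_top (ENat.natCast_ne_top n) hy)
  refine ⟨p, ?_⟩
  rw [← hp] at hy
  exact_mod_cast hy

lemma edist_le_two {x y : Vx} (h1 : y.k = x.k + 1) (h2 : y.i = x.i / 2) : gr.edist x y ≤ 2 := by
  have ha : gr.edist x (hub x.k x.i) ≤ 1 := by
    rw [SimpleGraph.edist_le_one_iff_adj_or_eq]
    by_cases h : x.a = 0
    · exact Or.inr (eq_hub h)
    · exact Or.inl (adj_hub h)
  have hb : gr.edist (hub x.k x.i) y ≤ 1 := by
    rw [SimpleGraph.edist_le_one_iff_adj_or_eq]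
    exact Or.inl (hub_adj h1 h2)
  calc gr.edist x y ≤ gr.edist x (hub x.k x.i) + gr.edist (hub x.k x.i) y :=
        SimpleGraph.edist_triangle
    _ ≤ 1 + 1 := add_le_add ha hb
    _ = 2 := by norm_num

lemma power_adj {n : ℕ} (hn : 2 ≤ n) {x y : Vx} (h1 : y.k = x.k + 1) (h2 : y.i = x.i / 2) :
    (power gr n).Adj x y :=
  ⟨fun e => by have := congrArg Vx.k e; omega,
    (edist_le_two h1 h2).trans (by exact_mod_cast hn)⟩

theorem power_transient {n : ℕ} (hn : 2 ≤ n) (v : Vx) : returnProb (power gr n) v < 1 := by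
  classical
  let _ : (power gr n).LocallyFinite := fun x => (power_fin gr gr_fin n x).fintype
  have hdeg : ∀ x, 0 < (power gr n).degree x := fun x =>
    ((power gr n).degree_pos_iff_exists_adj x).2
      ⟨hub (x.k + 1) (x.i / 2), power_adj hn rfl rfl⟩
  let B : ℕ → Finset Vx := fun j => if j = 0 then {v} else cluster (v.k + j) (v.i / 2 ^ j)
  have hB : ∀ j x, x ∈ B j → x.k = v.k + j ∧ x.i = v.i / 2 ^ j := by
    intro j x hx
    by_cases hj : j = 0
    · subst hj
      simp only [B, if_true, mem_singleton] at hx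
      subst hx; simp
    · simpa only [B, hj, if_false, mem_cluster] using hx
  refine returnProb_lt_one _ hdeg v (c := 1 / 2) (by norm_num)
    (transient_of_layers _ hdeg v B (by simp [B]) ?_ ?_ ?_)
  · intro i j x hi hj
    have h1 := (hB i x hi).1
    have h2 := (hB j x hj).1
    omega
  · intro j
    by_cases hj : j = 0
    · subst hj; simp [B]
    · simp only [B, hj, if_false, card_cluster]; omega
  · intro j x hx y hy
    obtain ⟨h1, h2⟩ := hB j x hx
    obtain ⟨h3, h4⟩ := hB (j + 1) y hy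
    refine power_adj hn (by omega) ?_
    rw [h4, h2, pow_succ, Nat.div_div_eq_div_mul]

/-! ### recurrence -/

/-- the level at which the ancestors of a vertex join the spine -/
def lev (x : Vx) : ℕ := x.k + Nat.size x.i

lemma size_div_two {i : ℕ} (h : i ≠ 0) : Nat.size (i / 2) + 1 = Nat.size i := by
  have h1 : Nat.bit (i.bodd) (i.div2) = i := Nat.bit_bodd_div2 i
  have h2 := Nat.size_bit (b := i.bodd) (n := i.div2) (by rw [h1]; exact h)
  rw [h1, Nat.div2_val] at h2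
  omega

lemma lev_finite (M : ℕ) : {x : Vx | lev x ≤ M}.Finite := by
  refine (((Finset.range (M + 1)) ×ˢ (Finset.range (2 ^ M)) ×ˢ (Finset.range (M + 1))).finite_toSet.preimage
    Vx.enc_inj.injOn).subset ?_
  intro x hx
  have hx' : x.k + Nat.size x.i ≤ M := hx
  have h1 : x.i < 2 ^ M := Nat.size_le.1 (by omega)
  have h2 := x.h
  simp only [Set.mem_preimage, Vx.enc, mem_coe, mem_product, mem_range]
  omega

lemma rel_lev {x y : Vx} (h : rel x y) :
    lev x = lev y ∨ (x = hub x.k 0 ∧ y ∈ cluster (x.k + 1) 0) := by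
  obtain ⟨h0, h | h⟩ := h
  · left; simp [lev, h.1, h.2]
  · by_cases hi : x.i = 0
    · right
      exact ⟨Vx.ext rfl hi h0, mem_cluster.2 ⟨h.1, by rw [h.2, hi]⟩⟩
    · left
      have := size_div_two hi
      simp only [lev, h.1, h.2]
      omega

lemma dir_lev_le (ψ : ℕ → ℝ) (M : ℕ) (hψ : ∀ k, M ≤ k → ψ k = ψ (k + 1)) (S : Finset Vx) :
    dir gr S (fun x => ψ (lev x)) (fun x => ψ (lev x)) ≤
      2 * ∑ k ∈ range M, (k + 2) * (ψ k - ψ (k + 1)) ^ 2 := by
  classical
  let F : Vx → Vx → ℝ := fun x y =>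
    ∑ k ∈ range M, if x = hub k 0 ∧ y ∈ cluster (k + 1) 0 then (ψ k - ψ (k + 1)) ^ 2 else 0
  have hF0 : ∀ x y, 0 ≤ F x y := fun x y => Finset.sum_nonneg fun k _ => by
    split_ifs
    · exact sq_nonneg _
    · exact le_rfl
  have h1 : ∀ x y, rel x y → (ψ (lev x) - ψ (lev y)) * (ψ (lev x) - ψ (lev y)) ≤ F x y := by
    intro x y h
    rcases rel_lev h with h | ⟨h1, h2⟩
    · rw [h]; simpa using hF0 x y
    · have hx : lev x = x.k := by rw [h1]; simp [lev, hub]
      have hy : lev y = x.k + 1 := by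
        obtain ⟨h3, h4⟩ := mem_cluster.1 h2
        simp [lev, h3, h4]
      rw [hx, hy]
      by_cases hM : M ≤ x.k
      · rw [hψ _ hM]; simpa using hF0 x y
      · refine le_trans ?_ (Finset.single_le_sum (f := fun k =>
          if x = hub k 0 ∧ y ∈ cluster (k + 1) 0 then (ψ k - ψ (k + 1)) ^ 2 else 0)
          (fun k _ => by
            split_ifs
            · exact sq_nonneg _
            · exact le_rfl) (mem_range.2 (not_le.1 hM)))
        rw [if_pos ⟨h1, h2⟩, sq]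
  have h2 : ∀ x y, (if gr.Adj x y then (ψ (lev x) - ψ (lev y)) * (ψ (lev x) - ψ (lev y)) else 0)
      ≤ F x y + F y x := by
    intro x y
    split_ifs with h
    · rcases (gr_adj.1 h).2 with h | h
      · linarith [h1 x y h, hF0 y x]
      · have := h1 y x h
        have e : (ψ (lev x) - ψ (lev y)) * (ψ (lev x) - ψ (lev y))
          = (ψ (lev y) - ψ (lev x)) * (ψ (lev y) - ψ (lev x)) := by ring
        linarith [hF0 x y]
    · linarith [hF0 x y, hF0 y x]
  have h3 : ∑ x ∈ S, ∑ y ∈ S, F x y ≤ ∑ k ∈ range M, (k + 2) * (ψ k - ψ (k + 1)) ^ 2 := by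
    have e : ∑ x ∈ S, ∑ y ∈ S, F x y = ∑ k ∈ range M, ∑ x ∈ S, ∑ y ∈ S,
        if x = hub k 0 ∧ y ∈ cluster (k + 1) 0 then (ψ k - ψ (k + 1)) ^ 2 else 0 := by
      simp only [F]
      rw [Finset.sum_congr rfl fun x _ => Finset.sum_comm, Finset.sum_comm]
    rw [e]
    refine Finset.sum_le_sum fun k _ => ?_
    have e2 : ∀ x, (∑ y ∈ S, if x = hub k 0 ∧ y ∈ cluster (k + 1) 0 then (ψ k - ψ (k + 1)) ^ 2
        else 0) ≤ if x = hub k 0 then (k + 2) * (ψ k - ψ (k + 1)) ^ 2 else 0 := by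
      intro x
      by_cases hx : x = hub k 0
      · simp only [hx, true_and, if_true]
        rw [← Finset.sum_filter, Finset.sum_const, nsmul_eq_mul]
        refine mul_le_mul_of_nonneg_right ?_ (sq_nonneg _)
        have : (S.filter (fun y => y ∈ cluster (k + 1) 0)).card ≤ k + 2 := by
          refine (card_le_card (t := cluster (k + 1) 0) fun y hy => (mem_filter.1 hy).2).trans ?_
          rw [card_cluster]
        exact_mod_cast this
      · simp [hx]
    refine (Finset.sum_le_sum fun x _ => e2 x).trans ?_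
    rw [Finset.sum_ite_eq' S (hub k 0)]
    split_ifs
    · exact le_rfl
    · positivity
  unfold dir
  calc _ ≤ ∑ x ∈ S, ∑ y ∈ S, (F x y + F y x) :=
        Finset.sum_le_sum fun x _ => Finset.sum_le_sum fun y _ => h2 x y
    _ = ∑ x ∈ S, ∑ y ∈ S, F x y + ∑ x ∈ S, ∑ y ∈ S, F x y := by
        simp only [Finset.sum_add_distrib]
        rw [Finset.sum_comm (f := fun x y => F y x)]
    _ ≤ _ := by linarith

lemma exists_harm (M0 : ℕ) (L : ℝ) :
    ∃ M1, M0 ≤ M1 ∧ L ≤ ∑ k ∈ Ico M0 M1, (1 / ((k : ℝ) + 2)) := by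
  have h := Real.tendsto_sum_range_one_div_nat_succ_atTop
  obtain ⟨N, hN⟩ := (h.eventually_ge_atTop
    (L + ∑ k ∈ range (M0 + 1), (1 / ((k : ℝ) + 1)))).exists_forall_of_atTop
  refine ⟨M0 + N, by omega, ?_⟩
  have h1 := hN (M0 + N + 1) (by omega)
  rw [← Finset.sum_range_add_sum_Ico _ (show M0 + 1 ≤ M0 + N + 1 by omega)] at h1
  have h2 : ∑ k ∈ Ico (M0 + 1) (M0 + N + 1), (1 / ((k : ℝ) + 1))
      = ∑ k ∈ Ico M0 (M0 + N), (1 / ((k : ℝ) + 2)) := by
    rw [← Finset.sum_Ico_add' (fun k : ℕ => (1 / ((k : ℝ) + 1))) M0 (M0 + N) 1]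
    refine Finset.sum_congr rfl fun k _ => ?_
    push_cast; ring_nf
  linarith

theorem gr_recurrent (v : Vx) : returnProb gr v = 1 := by
  classical
  let _ : gr.LocallyFinite := fun x => (gr_fin x).fintype
  have hdeg : ∀ x, 0 < gr.degree x := fun x => (gr.degree_pos_iff_exists_adj x).2 (exists_adj x)
  refine returnProb_eq_one _ hdeg v fun y hy => recurrent_of_test _ hdeg v y hy fun ε hε => ?_
  obtain ⟨M1, hM, hL⟩ := exists_harm (lev y) (2 / ε)
  set M0 := lev y with hM0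
  set L := ∑ k ∈ Ico M0 M1, (1 / ((k : ℝ) + 2)) with hLdef
  have hL0 : 0 < L := lt_of_lt_of_le (by positivity) hL
  let ψ : ℕ → ℝ := fun m => (∑ k ∈ Ico M0 M1, if m ≤ k then (1 / ((k : ℝ) + 2)) else 0) / L
  have hψ : ∀ m, ψ m - ψ (m + 1) = (if m ∈ Ico M0 M1 then (1 / ((m : ℝ) + 2)) else 0) / L := by
    intro m
    simp only [ψ]
    rw [← sub_div, ← Finset.sum_sub_distrib,
      ← Finset.sum_ite_eq (Ico M0 M1) m (fun k => (1 / ((k : ℝ) + 2)))]
    congr 1
    refine Finset.sum_congr rfl fun k _ => ?_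
    rcases lt_trichotomy m k with h | h | h
    · rw [if_pos h.le, if_pos (by omega), if_neg h.ne]; ring
    · rw [if_pos h.le, if_neg (by omega), if_pos h]; ring
    · rw [if_neg (by omega), if_neg (by omega), if_neg h.ne']; ring
  refine ⟨fun x => ψ (lev x), ?_, ?_, fun S => ?_⟩
  · refine (lev_finite M1).subset fun x hx => ?_
    by_contra hc
    have hc' : M1 < lev x := not_le.1 hc
    apply hx
    simp only [ψ]
    rw [Finset.sum_eq_zero, zero_div]
    intro k hk
    rw [if_neg]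
    have := (mem_Ico.1 hk).2
    omega
  · simp only [ψ]
    rw [div_eq_one_iff_eq hL0.ne', hLdef]
    exact Finset.sum_congr rfl fun k hk => if_pos (mem_Ico.1 hk).1
  · refine (dir_lev_le ψ M1 (fun k hk => ?_) S).trans ?_
    · have := hψ k
      rw [if_neg (by simp; omega), zero_div] at this
      linarith
    · have e : ∑ k ∈ range M1, ((k : ℝ) + 2) * (ψ k - ψ (k + 1)) ^ 2 = 1 / L := by
        have e1 : ∀ k ∈ range M1, ((k : ℝ) + 2) * (ψ k - ψ (k + 1)) ^ 2
            = (if k ∈ Ico M0 M1 then (1 / ((k : ℝ) + 2)) else 0) / L ^ 2 := by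
          intro k _
          rw [hψ]
          split_ifs
          · field_simp
          · simp
        rw [Finset.sum_congr rfl e1, ← Finset.sum_div, ← Finset.sum_filter]
        have e2 : (range M1).filter (fun k => k ∈ Ico M0 M1) = Ico M0 M1 := by
          ext k; simp only [mem_filter, mem_range, mem_Ico]; omega
        rw [e2, ← hLdef]
        field_simp
      rw [e, mul_one_div, div_le_iff₀ hL0]
      rw [div_le_iff₀ hε] at hL
      linarith

/-! ### the root distribution -/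

noncomputable def wt (x : Vx) : ℝ≥0∞ := if x.i = 0 then ((2 : ℝ≥0∞) ^ x.k)⁻¹ else 0

def sw (t : ℕ) (x : Vx) : Vx := ⟨x.k, x.i ^^^ (t / 2 ^ x.k), x.a, x.h⟩

lemma sw_sw (t : ℕ) (x : Vx) : sw t (sw t x) = x := by
  refine Vx.ext rfl ?_ rfl
  simp [sw]

lemma rel_sw (t : ℕ) {x y : Vx} (h : rel x y) : rel (sw t x) (sw t y) := by
  obtain ⟨h0, h | h⟩ := h
  · exact ⟨h0, Or.inl ⟨h.1, by simp [sw, h.1, h.2]⟩⟩
  · refine ⟨h0, Or.inr ⟨h.1, ?_⟩⟩
    simp only [sw, h.1, h.2, Nat.xor_div_two, pow_succ, Nat.div_div_eq_div_mul]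

def swE (t : ℕ) : Vx ≃ Vx := ⟨sw t, sw t, sw_sw t, sw_sw t⟩

def swI (t : ℕ) : gr ≃g gr where
  toEquiv := swE t
  map_rel_iff' := by
    have key : ∀ x y, gr.Adj x y → gr.Adj (sw t x) (sw t y) := by
      intro x y h
      obtain ⟨h1, h2⟩ := gr_adj.1 h
      exact gr_adj.2 ⟨fun e => h1 ((swE t).injective e), h2.imp (rel_sw t) (rel_sw t)⟩
    intro x y
    refine ⟨fun h => ?_, key x y⟩
    have := key _ _ h
    change gr.Adj (sw t (sw t x)) (sw t (sw t y)) at this
    rwa [sw_sw, sw_sw] at this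

lemma tsum_wt_sw (x : Vx) : ∑' t, wt (sw t x) = 1 := by
  have hp : 0 < 2 ^ x.k := by positivity
  have hmem : ∀ t, (sw t x).i = 0 ↔ t ∈ Ico (x.i * 2 ^ x.k) ((x.i + 1) * 2 ^ x.k) := by
    intro t
    simp only [sw, Nat.xor_eq_zero_iff, mem_Ico]
    rw [eq_comm, Nat.div_eq_iff hp]
    have : (x.i + 1) * 2 ^ x.k = x.i * 2 ^ x.k + 2 ^ x.k := by ring
    omega
  rw [tsum_eq_sum (s := Ico (x.i * 2 ^ x.k) ((x.i + 1) * 2 ^ x.k))
    (fun t ht => by rw [wt, if_neg (fun h => ht ((hmem t).1 h))])]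
  rw [Finset.sum_congr rfl (g := fun _ => ((2 : ℝ≥0∞) ^ x.k)⁻¹)
    (fun t ht => by rw [wt, if_pos ((hmem t).2 ht)]; rfl)]
  rw [Finset.sum_const, Nat.card_Ico, nsmul_eq_mul]
  have : (x.i + 1) * 2 ^ x.k - x.i * 2 ^ x.k = 2 ^ x.k := by
    rw [add_mul, one_mul, Nat.add_sub_cancel_left]
  rw [this]
  push_cast
  exact ENNReal.mul_inv_cancel (by simp) (by simp)

lemma mtp (f : Vx → Vx → ℝ≥0∞) (hf : ∀ t x y, f (sw t x) (sw t y) = f x y) :
    ∑' r, wt r * ∑' x, f r x = ∑' r, wt r * ∑' x, f x r := by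
  have h1 : ∑' r, wt r * ∑' x, f r x = ∑' t, ∑' r, ∑' x, wt r * wt (sw t x) * f r x := by
    rw [ENNReal.tsum_comm]
    refine tsum_congr fun r => ?_
    rw [ENNReal.tsum_comm, ← ENNReal.tsum_mul_left]
    refine tsum_congr fun x => ?_
    rw [ENNReal.tsum_mul_right, ENNReal.tsum_mul_left, tsum_wt_sw, mul_one]
  have h2 : ∑' r, wt r * ∑' x, f x r = ∑' t, ∑' x, ∑' r, wt (sw t x) * wt r * f x r := by
    simp only [← ENNReal.tsum_mul_left]
    rw [ENNReal.tsum_comm, ENNReal.tsum_comm (f := fun t x => ∑' r, wt (sw t x) * wt r * f x r)]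
    refine tsum_congr fun x => ?_
    rw [ENNReal.tsum_comm]
    refine tsum_congr fun r => ?_
    rw [ENNReal.tsum_mul_right, ENNReal.tsum_mul_right, tsum_wt_sw, one_mul]
  rw [h1, h2]
  refine tsum_congr fun t => ?_
  rw [← (swE t).tsum_eq]
  refine tsum_congr fun r => ?_
  rw [← (swE t).tsum_eq]
  refine tsum_congr fun x => ?_
  change wt (sw t r) * wt (sw t (sw t x)) * f (sw t r) (sw t x) = _
  rw [sw_sw, hf]

lemma tsum_wt_mul : ∑' x, wt x * ENNReal.ofReal ((9 / 8) ^ x.k) ≠ ⊤ := by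
  let s : ℝ≥0∞ := ENNReal.ofReal (3 / 4)
  let F : ℕ × ℕ × ℕ → ℝ≥0∞ := fun p => s ^ p.1 * ((if p.2.1 = 0 then 1 else 0) * s ^ p.2.2)
  have h1 : ∀ x : Vx, wt x * ENNReal.ofReal ((9 / 8) ^ x.k) ≤ F x.enc := by
    intro x
    simp only [wt, F, Vx.enc]
    split_ifs
    · have e1 : ((2 : ℝ≥0∞) ^ x.k)⁻¹ = ENNReal.ofReal ((1 / 2) ^ x.k) := by
        rw [ENNReal.inv_pow, ENNReal.ofReal_pow (by norm_num)]
        congr 1
        rw [one_div, ENNReal.ofReal_inv_of_pos (by norm_num)]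
        simp
      rw [e1, one_mul, ← ENNReal.ofReal_pow (by norm_num), ← ENNReal.ofReal_pow (by norm_num),
        ← ENNReal.ofReal_mul (by positivity), ← ENNReal.ofReal_mul (by positivity)]
      refine ENNReal.ofReal_le_ofReal ?_
      rw [← mul_pow, show (1 / 2 * (9 / 8) : ℝ) = 3 / 4 * (3 / 4) by norm_num, mul_pow]
      exact mul_le_mul_of_nonneg_left (pow_le_pow_of_le_one (by norm_num) (by norm_num) x.h)
        (by positivity)
    · simp
  have hs : ∑' k : ℕ, s ^ k ≠ ⊤ := by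
    rw [ENNReal.tsum_geometric]
    refine ENNReal.inv_ne_top.2 (tsub_pos_of_lt ?_).ne'
    simp only [s]
    rw [ENNReal.ofReal_lt_one]; norm_num
  have hprod : ∀ {α β : Type} (f : α → ℝ≥0∞) (g : β → ℝ≥0∞),
      ∑' p : α × β, f p.1 * g p.2 = (∑' a, f a) * ∑' b, g b := by
    intro α β f g
    rw [ENNReal.tsum_prod (f := fun a b => f a * g b), ← ENNReal.tsum_mul_right]
    exact tsum_congr fun a => ENNReal.tsum_mul_left
  have h2 : ∑' p, F p ≠ ⊤ := by
    simp only [F]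
    rw [hprod (fun k : ℕ => s ^ k)
      (fun p : ℕ × ℕ => (if p.1 = 0 then 1 else 0) * s ^ p.2),
      hprod (fun i : ℕ => (if i = 0 then (1 : ℝ≥0∞) else 0)) (fun k : ℕ => s ^ k)]
    refine ENNReal.mul_ne_top hs (ENNReal.mul_ne_top ?_ hs)
    simp
  exact ne_top_of_le_ne_top h2 ((ENNReal.tsum_le_tsum h1).trans
    (ENNReal.tsum_comp_le_tsum_of_injective Vx.enc_inj F))

lemma tsum_wt_ne_top : tsum wt ≠ ⊤ := by
  refine ne_top_of_le_ne_top tsum_wt_mul (ENNReal.tsum_le_tsum fun x => ?_)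
  refine le_mul_of_one_le_right (by simp) ?_
  exact ENNReal.one_le_ofReal.2 (one_le_pow₀ (by norm_num))

lemma tsum_wt_ne_zero : tsum wt ≠ 0 := by
  intro h
  have := ENNReal.tsum_eq_zero.1 h (hub 0 0)
  simp [wt, hub] at this

noncomputable def root : PMF Vx := PMF.normalize wt tsum_wt_ne_zero tsum_wt_ne_top

theorem gr_unimodular : Unimodular gr root := by
  intro f hf
  have := mtp (f Vx gr) (fun t x y => hf Vx Vx gr gr (swI t) x y)
  simp only [root, PMF.normalize_apply, mul_right_comm _ (∑' x, wt x)⁻¹, ENNReal.tsum_mul_right]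
  rw [this]

theorem gr_tail : ∃ C c : ℝ, 0 < C ∧ 0 < c ∧ ∀ n : ℕ, 1 ≤ n →
    root.toMeasure {v | n ≤ (gr.neighborSet v).ncard} ≤ ENNReal.ofReal (C * Real.exp (-c * n)) := by
  set Z := (∑' x, wt x * ENNReal.ofReal ((9 / 8) ^ x.k)) * (∑' x, wt x)⁻¹ with hZ
  have hZ1 : Z ≠ ⊤ := ENNReal.mul_ne_top tsum_wt_mul (ENNReal.inv_ne_top.2 tsum_wt_ne_zero)
  have hl : 0 < Real.log (9 / 8) := Real.log_pos (by norm_num)
  refine ⟨(Z.toReal + 1) * (9 / 8) ^ 2, Real.log (9 / 8) / 4, by positivity, by positivity,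
    fun n _ => ?_⟩
  set q : ℝ := (9 / 8) ^ 2 * Real.exp (-(Real.log (9 / 8) / 4) * n) with hq
  have hq0 : 0 ≤ q := by positivity
  rw [PMF.toMeasure_apply _ MeasurableSet.of_discrete]
  have h1 : ∀ x, ({v | n ≤ (gr.neighborSet v).ncard} : Set Vx).indicator root x ≤
      wt x * ENNReal.ofReal ((9 / 8) ^ x.k) * (∑' x, wt x)⁻¹ * ENNReal.ofReal q := by
    intro x
    by_cases hx : x ∈ ({v | n ≤ (gr.neighborSet v).ncard} : Set Vx)
    · rw [Set.indicator_of_mem hx, root, PMF.normalize_apply, mul_right_comm (wt x), mul_assoc,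
        mul_assoc]
      rw [← mul_assoc]
      refine le_mul_of_one_le_right (by simp) ?_
      rw [← ENNReal.ofReal_mul (by positivity), ENNReal.one_le_ofReal, hq, ← mul_assoc, ← pow_add]
      have h2 : n ≤ 4 * (x.k + 2) := le_trans hx (gr_ncard x)
      have h3 : (n : ℝ) ≤ 4 * ((x.k + 2 : ℕ) : ℝ) := by exact_mod_cast h2
      have h4 : ((9 : ℝ) / 8) ^ (x.k + 2) = Real.exp (((x.k + 2 : ℕ) : ℝ) * Real.log (9 / 8)) := by
        rw [Real.exp_nat_mul, Real.exp_log (by norm_num)]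
      rw [h4, ← Real.exp_add]
      refine Real.one_le_exp ?_
      nlinarith
    · rw [Set.indicator_of_notMem hx]; simp
  refine (ENNReal.tsum_le_tsum h1).trans ?_
  rw [ENNReal.tsum_mul_right, ENNReal.tsum_mul_right, ← hZ, mul_assoc (Z.toReal + 1), ← hq,
    ENNReal.ofReal_mul (p := Z.toReal + 1) (by positivity)]
  gcongr
  calc Z = ENNReal.ofReal Z.toReal := (ENNReal.ofReal_toReal hZ1).symm
    _ ≤ _ := ENNReal.ofReal_le_ofReal (by linarith)

end Pool.Agent.H377Z.Rec
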