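import Pool.Agent.H377Z.Rec.Defs

set_option autoImplicit false
set_option linter.unusedSectionVars false

namespace Pool.Agent.H377Z.Rec

open MeasureTheory ProbabilityTheory Preorder Filter Topology
open scoped ENNReal

variable {V : Type} [Countable V] [MeasurableSpace V] [DiscreteMeasurableSpace V]

instance (G : SimpleGraph V) (v : V) : IsProbabilityMeasure (walkLaw G v) := by
  unfold walkLaw; infer_instance

lemma walk_zero (G : SimpleGraph V) (v : V) :
    (walkLaw G v).map (fun ω => ω 0) = Measure.dirac v := by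
  have h1 : (walkLaw G v).map (frestrictLe (π := fun _ => V) 0)
      = (Measure.dirac v).map (MeasurableEquiv.piUnique (fun _ : Finset.Iic 0 => V)).symm := by
    unfold walkLaw Kernel.trajMeasure
    rw [Measure.map_comp _ _ (by fun_prop), Kernel.traj_map_frestrictLe, Kernel.partialTraj_self]
    exact Measure.id_comp
  have h2 : (fun ω : ℕ → V => ω 0) = (fun h : Finset.Iic 0 → V => h ⟨0, by simp⟩) ∘
      (frestrictLe (π := fun _ => V) 0) := rfl
  rw [h2, ← Measure.map_map (by fun_prop) (by fun_prop), h1, Measure.map_map (by fun_prop)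
    (by fun_prop)]
  have h3 : ((fun h : Finset.Iic 0 → V => h ⟨0, by simp⟩) ∘
      (MeasurableEquiv.piUnique (fun _ : Finset.Iic 0 => V)).symm) = id := by
    funext w
    rfl
  rw [h3, Measure.map_id]

lemma lintegral_walk_succ (G : SimpleGraph V) (v : V) (n : ℕ)
    (F : (Finset.Iic n → V) × V → ℝ≥0∞) :
    ∫⁻ ω, F (frestrictLe (π := fun _ => V) n ω, ω (n + 1)) ∂(walkLaw G v)
      = ∫⁻ ω, ∑' y, F (frestrictLe (π := fun _ => V) n ω, y) * step G (ω n) y ∂(walkLaw G v) := by
  have hF : Measurable F := measurable_of_countable F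
  have h1 := Kernel.map_frestrictLe_trajMeasure_compProd_eq_map_trajMeasure
    (X := fun _ => V) (μ₀ := Measure.dirac v) (κ := stepKernel G) (a := n)
  have h2 : ∫⁻ ω, F (frestrictLe (π := fun _ => V) n ω, ω (n + 1)) ∂(walkLaw G v)
      = ∫⁻ p, F p ∂((walkLaw G v).map
        (fun ω => (frestrictLe (π := fun _ => V) n ω, ω (n + 1)))) := by
    rw [lintegral_map hF (by fun_prop)]
  rw [h2]
  unfold walkLaw
  rw [← h1, Measure.lintegral_compProd hF, lintegral_map (measurable_of_countable _) (by fun_prop)]
  refine lintegral_congr fun ω => ?_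
  rw [lintegral_countable']
  refine tsum_congr fun y => ?_
  congr 1
  change (step G (ω n)).toMeasure {y} = _
  rw [PMF.toMeasure_apply_singleton _ _ (measurableSet_singleton _)]

open Classical in
/-- probability of avoiding `v` at the times `1, ..., m` -/
noncomputable def avoid (G : SimpleGraph V) (v : V) : ℕ → V → ℝ≥0∞
  | 0, _ => 1
  | m + 1, x => ∑' y, (if y = v then 0 else avoid G v m y) * step G x y

def avoidSet (v : V) (n : ℕ) : Set (ℕ → V) := {ω | ∀ j, 1 ≤ j → j ≤ n → ω j ≠ v}

open Classical in
lemma lintegral_avoid (G : SimpleGraph V) (v x : V) (n m : ℕ) :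
    ∫⁻ ω, (if ω ∈ avoidSet v n then avoid G v m (ω n) else 0) ∂(walkLaw G x)
      = avoid G v (n + m) x := by
  induction n generalizing m with
  | zero =>
    have h1 : ∀ ω : ℕ → V, ω ∈ avoidSet v 0 := fun ω j h1 h2 => by omega
    simp only [h1, if_true, zero_add]
    rw [← lintegral_map (f := avoid G v m) (g := fun ω : ℕ → V => ω 0)
      (measurable_of_countable _) (by fun_prop), walk_zero, lintegral_dirac]
  | succ n ih =>
    have e : n + 1 + m = n + (m + 1) := by ring
    rw [e, ← ih (m + 1)]
    let F : (Finset.Iic n → V) × V → ℝ≥0∞ := fun p =>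
      if ∀ j : Finset.Iic n, 1 ≤ (j : ℕ) → p.1 j ≠ v then
        (if p.2 = v then 0 else avoid G v m p.2) else 0
    have hiff : ∀ ω : ℕ → V, (∀ j : Finset.Iic n, 1 ≤ (j : ℕ) →
        frestrictLe (π := fun _ => V) n ω j ≠ v) ↔ ω ∈ avoidSet v n := by
      intro ω
      constructor
      · intro h j h1 h2
        exact h ⟨j, Finset.mem_Iic.2 h2⟩ h1
      · intro h j h1
        exact h j h1 (Finset.mem_Iic.1 j.2)
    have h1 : ∀ ω : ℕ → V, (if ω ∈ avoidSet v (n + 1) then avoid G v m (ω (n + 1)) else 0)
        = F (frestrictLe (π := fun _ => V) n ω, ω (n + 1)) := by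
      intro ω
      simp only [F, hiff]
      by_cases ha : ω ∈ avoidSet v n
      · by_cases hb : ω (n + 1) = v
        · rw [if_neg, if_pos ha, if_pos hb]
          intro h
          exact h (n + 1) (by omega) le_rfl hb
        · rw [if_pos, if_pos ha, if_neg hb]
          intro j h1 h2
          rcases Nat.lt_or_ge j (n + 1) with h | h
          · exact ha j h1 (by omega)
          · have : j = n + 1 := by omega
            rw [this]; exact hb
      · rw [if_neg, if_neg ha]
        intro h
        exact ha fun j h1 h2 => h j h1 (by omega)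
    simp only [h1]
    rw [lintegral_walk_succ]
    refine lintegral_congr fun ω => ?_
    simp only [F, hiff]
    by_cases ha : ω ∈ avoidSet v n
    · simp only [ha, if_true, avoid]
    · simp [ha]

lemma measurableSet_avoidSet (v : V) (n : ℕ) : MeasurableSet (avoidSet v n) := by
  have : avoidSet v n = ⋂ j, ⋂ (_ : 1 ≤ j), ⋂ (_ : j ≤ n), (fun ω : ℕ → V => ω j) ⁻¹' {v}ᶜ := by
    ext ω; simp [avoidSet]
  rw [this]
  exact MeasurableSet.iInter fun j => MeasurableSet.iInter fun _ => MeasurableSet.iInter fun _ =>
    (measurable_pi_apply j) (MeasurableSet.of_discrete)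

lemma walk_avoidSet (G : SimpleGraph V) (v x : V) (n : ℕ) :
    walkLaw G x (avoidSet v n) = avoid G v n x := by
  classical
  have := lintegral_avoid G v x n 0
  rw [add_zero] at this
  rw [← this, ← lintegral_indicator_one (measurableSet_avoidSet v n)]
  refine lintegral_congr fun ω => ?_
  simp [Set.indicator, avoid]

lemma returnProb_eq (G : SimpleGraph V) (v : V) :
    returnProb G v = 1 - ⨅ n, avoid G v n v := by
  have h1 : {ω : ℕ → V | ∃ n, 1 ≤ n ∧ ω n = v} = (⋂ n, avoidSet v n)ᶜ := by
    ext ω
    simp only [Set.mem_ofPred_eq, Set.mem_compl_iff, Set.mem_iInter, avoidSet]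
    constructor
    · rintro ⟨n, h1, h2⟩ h
      exact h n n h1 le_rfl h2
    · intro h
      by_contra hc
      push Not at hc
      exact h fun n j h1 _ => hc j h1
  have hanti : Antitone (avoidSet v) := fun a b hab ω h j h1 h2 => h j h1 (h2.trans hab)
  rw [returnProb, h1, prob_compl_eq_one_sub (MeasurableSet.iInter (measurableSet_avoidSet v)),
    hanti.measure_iInter (fun n => (measurableSet_avoidSet v n).nullMeasurableSet)
      ⟨0, measure_ne_top _ _⟩]
  simp only [walk_avoidSet]

open Classical in
/-- real version: probability of avoiding `v` at the times `0, ..., m` -/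
noncomputable def av (G : SimpleGraph V) [G.LocallyFinite] (v : V) : ℕ → V → ℝ
  | 0, x => if x = v then 0 else 1
  | m + 1, x => if x = v then 0 else (∑ y ∈ G.neighborFinset x, av G v m y) / G.degree x

lemma av_nonneg (G : SimpleGraph V) [G.LocallyFinite] (v : V) (m : ℕ) (x : V) :
    0 ≤ av G v m x := by
  induction m generalizing x with
  | zero => unfold av; split_ifs <;> norm_num
  | succ m ih =>
    unfold av; split_ifs
    · exact le_rfl
    · exact div_nonneg (Finset.sum_nonneg fun y _ => ih y) (Nat.cast_nonneg _)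

lemma tsum_step (G : SimpleGraph V) [G.LocallyFinite] {x : V} (hx : 0 < G.degree x)
    (f : V → ℝ) (hf : ∀ y, 0 ≤ f y) :
    ∑' y, ENNReal.ofReal (f y) * step G x y
      = ENNReal.ofReal ((∑ y ∈ G.neighborFinset x, f y) / G.degree x) := by
  classical
  have h : (G.neighborSet x).Finite ∧ (G.neighborSet x).Nonempty := by
    refine ⟨Set.toFinite _, ?_⟩
    obtain ⟨y, hy⟩ := (G.degree_pos_iff_exists_adj x).1 hx
    exact ⟨y, hy⟩
  have h2 : h.1.toFinset = G.neighborFinset x := by ext y; simp
  have h3 : ∀ y, step G x y = if y ∈ G.neighborFinset x then (G.degree x : ℝ≥0∞)⁻¹ else 0 := by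
    intro y
    rw [step, dif_pos h, PMF.uniformOfFinset_apply, h2]
    simp
  rw [tsum_eq_sum (s := G.neighborFinset x) (fun y hy => by rw [h3, if_neg hy, mul_zero])]
  rw [Finset.sum_congr rfl (fun y hy => by rw [h3, if_pos hy]), ← Finset.sum_mul,
    ← ENNReal.ofReal_sum_of_nonneg (fun y _ => hf y), ENNReal.ofReal_div_of_pos (by positivity),
    ENNReal.ofReal_natCast, div_eq_mul_inv]

open Classical in
lemma avoid_eq (G : SimpleGraph V) [G.LocallyFinite] (hG : ∀ x, 0 < G.degree x) (v : V) (m : ℕ)
    (x : V) : (if x = v then 0 else avoid G v m x) = ENNReal.ofReal (av G v m x) := by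
  induction m generalizing x with
  | zero => unfold av avoid; split_ifs <;> simp
  | succ m ih =>
    unfold av avoid
    split_ifs
    · simp
    · simp only [ih]
      exact tsum_step G (hG x) _ (av_nonneg G v m)

lemma avoid_succ_self (G : SimpleGraph V) [G.LocallyFinite] (hG : ∀ x, 0 < G.degree x) (v : V)
    (m : ℕ) : avoid G v (m + 1) v
      = ENNReal.ofReal ((∑ y ∈ G.neighborFinset v, av G v m y) / G.degree v) := by
  unfold avoid
  simp only [avoid_eq G hG]
  exact tsum_step G (hG v) _ (av_nonneg G v m)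

lemma returnProb_lt_one (G : SimpleGraph V) [G.LocallyFinite] (hG : ∀ x, 0 < G.degree x) (v : V)
    {c : ℝ} (hc : 0 < c) (h : ∀ m, c ≤ ∑ y ∈ G.neighborFinset v, av G v m y) :
    returnProb G v < 1 := by
  rw [returnProb_eq]
  refine ENNReal.sub_lt_self ENNReal.one_ne_top one_ne_zero ?_
  have hd : (0 : ℝ) < G.degree v := by exact_mod_cast hG v
  have h1 : min 1 (ENNReal.ofReal (c / G.degree v)) ≤ ⨅ n, avoid G v n v := by
    refine le_iInf fun n => ?_
    cases n with
    | zero => exact min_le_left _ _
    | succ m =>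
      rw [avoid_succ_self G hG]
      exact (min_le_right _ _).trans (ENNReal.ofReal_le_ofReal (by gcongr; exact h m))
  have h2 : 0 < min 1 (ENNReal.ofReal (c / G.degree v)) :=
    lt_min one_pos (ENNReal.ofReal_pos.2 (by positivity))
  exact (h2.trans_le h1).ne'

lemma returnProb_eq_one (G : SimpleGraph V) [G.LocallyFinite] (hG : ∀ x, 0 < G.degree x) (v : V)
    (h : ∀ y, G.Adj v y → Tendsto (fun m => av G v m y) atTop (𝓝 0)) :
    returnProb G v = 1 := by
  rw [returnProb_eq]
  have h1 : Tendsto (fun m => avoid G v (m + 1) v) atTop (𝓝 0) := by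
    simp only [avoid_succ_self G hG]
    have h2 : Tendsto (fun m => (∑ y ∈ G.neighborFinset v, av G v m y) / G.degree v) atTop
        (𝓝 ((∑ y ∈ G.neighborFinset v, (0 : ℝ)) / G.degree v)) :=
      (tendsto_finsetSum _ fun y hy => h y (by simpa using hy)).div_const _
    have h3 := ENNReal.tendsto_ofReal h2
    simpa using h3
  have h2 : ⨅ n, avoid G v n v = 0 := by
    refine le_antisymm ?_ (by simp)
    exact ge_of_tendsto' h1 fun m => iInf_le _ _
  rw [h2, tsub_zero]

end Pool.Agent.H377Z.Rec
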